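import Pool.Agent.Helper224.Usm7
import Pool.Agent.Helper224.Usm10

/-!
# MP_f9147b_an, Q1 (Milman)

There is a reflexive infinite-dimensional Banach space none of whose spreading models is reflexive
or isomorphic to `ℓ₁` or `c₀`, and all of whose spreading models generated by normalized weakly
null sequences are equivalent to one and the same explicit symmetric basis, the unit vector basis
of the Marcinkiewicz sequence space with fundamental weight `n / (1 + ⌊log₂ n⌋)`.
-/

set_option autoImplicit false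
open Filter Topology

namespace Pool.Agent.Results.MP_f9147b_an.OneMarcinkiewicz

/-- the weight `n / (1 + ⌊log₂ n⌋)` -/
noncomputable def weight (n : ℕ) : ℝ := (n : ℝ) / (1 + (Nat.log 2 n : ℝ))

/-- `e` is a spreading model of `X` generated by `x` (its span is dense in `E`) -/
def IsSpreadingModel {X E : Type} [NormedAddCommGroup X] [NormedSpace ℝ X] [NormedAddCommGroup E]
    [NormedSpace ℝ E] (x : ℕ → X) (e : ℕ → E) : Prop :=
  LinearIndependent ℝ e ∧
  Dense ((Submodule.span ℝ (Set.range e) : Submodule ℝ E) : Set E) ∧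
  ∀ (k : ℕ) (a : Fin k → ℝ) (ε : ℝ), 0 < ε →
    ∃ N : ℕ, ∀ n : Fin k → ℕ, StrictMono n → (∀ i, N ≤ n i) →
      |‖∑ i : Fin k, a i • x (n i)‖ - ‖∑ i : Fin k, a i • e (i : ℕ)‖| < ε

/-- the basis `e` is equivalent to the unit vector basis of the Marcinkiewicz space with weight
`weight`: the norm of `∑ a i • e i` is, up to constants, the least `B ≥ 0` such that
`∑ i ∈ F, |a i| ≤ B * weight |F|` for all `F` -/
def IsMarcinkiewicz {E : Type} [NormedAddCommGroup E] [NormedSpace ℝ E] (e : ℕ → E) : Prop :=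
  ∃ c C : ℝ, 0 < c ∧ 0 < C ∧ ∀ (k : ℕ) (a : Fin k → ℝ),
    (∀ F : Finset (Fin k), c * ∑ i ∈ F, |a i| ≤ weight F.card * ‖∑ i : Fin k, a i • e (i : ℕ)‖) ∧
    (∀ B : ℝ, 0 ≤ B → (∀ F : Finset (Fin k), ∑ i ∈ F, |a i| ≤ B * weight F.card) →
      ‖∑ i : Fin k, a i • e (i : ℕ)‖ ≤ C * B)

/-- reflexive: the canonical map into the bidual is onto -/
def IsReflexive (E : Type) [NormedAddCommGroup E] [NormedSpace ℝ E] : Prop :=
  Function.Surjective (NormedSpace.inclusionInDoubleDual ℝ E)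

/-- linearly homeomorphic to `ℓ₁` -/
def IsoL1 (E : Type) [NormedAddCommGroup E] [NormedSpace ℝ E] : Prop :=
  Nonempty (E ≃L[ℝ] lp (fun _ : ℕ => ℝ) 1)

/-- linearly homeomorphic to `c₀` -/
def IsoC0 (E : Type) [NormedAddCommGroup E] [NormedSpace ℝ E] : Prop :=
  Nonempty (E ≃L[ℝ] ZeroAtInftyContinuousMap ℕ ℝ)

/-- norm one vectors tending weakly to zero -/
def NormalizedWeaklyNull {X : Type} [NormedAddCommGroup X] [NormedSpace ℝ X] (x : ℕ → X) : Prop :=
  (∀ n, ‖x n‖ = 1) ∧ ∀ f : X →L[ℝ] ℝ, Tendsto (fun n => f (x n)) atTop (𝓝 0)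

/-- no spreading model of `X` is reflexive or isomorphic to `ℓ₁` or `c₀`, and those generated by
normalized weakly null sequences are equivalent to the Marcinkiewicz basis -/
def Bad (X : Type) [NormedAddCommGroup X] [NormedSpace ℝ X] : Prop :=
  ∀ (x : ℕ → X) (E : Type) (_ : NormedAddCommGroup E) (_ : NormedSpace ℝ E)
    (_ : CompleteSpace E) (e : ℕ → E), IsSpreadingModel x e →
    ¬ IsReflexive E ∧ ¬ IsoL1 E ∧ ¬ IsoC0 E ∧ (NormalizedWeaklyNull x → IsMarcinkiewicz e)

/-- Main result. -/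
theorem result :
    ∃ (X : Type) (_ : NormedAddCommGroup X) (_ : NormedSpace ℝ X),
      CompleteSpace X ∧ ¬ FiniteDimensional ℝ X ∧ IsReflexive X ∧ Bad X := by
  refine ⟨Helper224.Usm.T, inferInstance, inferInstance, inferInstance,
    Helper224.Usm.T_infinite, Helper224.Usm.T_reflexive, ?_⟩
  intro x E _ _ _ e he
  obtain ⟨hli, -, hgen⟩ := he
  obtain ⟨d, C, c, hc, hU, hL⟩ := Helper224.Usm.main_gen (x := x) (f := e) hgen hli
  refine ⟨fun hr => Helper224.Usm.not_reflexive hU hL hc hr,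
    fun ⟨Φ⟩ => Helper224.Usm.not_iso_l1 hU hL hc Φ,
    fun ⟨Φ⟩ => Helper224.Usm.not_iso_c0 hU hL hc Φ, ?_⟩
  rintro ⟨hx, hw⟩
  have hxc := Helper224.Usm.coord_tendsto hw
  have hspr : Helper224.Usm.Spr x (fun k a => ‖∑ i : Fin k, a i • e (i : ℕ)‖) := hgen
  obtain ⟨c1, hc1, hlow⟩ := Helper224.Usm.spr_lower hx hxc hspr
  refine ⟨c1, 440, hc1, by norm_num, fun k a => ⟨fun F => hlow k a F, fun B hB hF => ?_⟩⟩
  exact Helper224.Usm.spr_upper hx hxc hspr k a B hB hF

end Pool.Agent.Results.MP_f9147b_an.OneMarcinkiewicz
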